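import Mathlib

set_option autoImplicit false

namespace Pool.Agent.Work.MP_6503f0_an

universe u

/-- A JB*-algebra structure on a complex Banach space `A` (completeness is assumed where it is
used): a bounded commutative bilinear product with the Jordan identity, submultiplicative for the
norm, with an algebra involution such that `‖U_a(a*)‖ = ‖a‖³`, where
`U_a(b) = 2(a ∘ b) ∘ a - a² ∘ b`. -/
structure JBStarAlgebra (A : Type u) [NormedAddCommGroup A] [NormedSpace ℂ A] where
  /-- the Jordan product -/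
  mul : A →L[ℂ] A →L[ℂ] A
  /-- the involution -/
  star : A → A
  mul_comm : ∀ a b, mul a b = mul b a
  jordan : ∀ a b, mul (mul (mul a a) b) a = mul (mul a a) (mul b a)
  norm_mul_le : ∀ a b, ‖mul a b‖ ≤ ‖a‖ * ‖b‖
  star_add : ∀ a b, star (a + b) = star a + star b
  star_smul : ∀ (z : ℂ) (a : A), star (z • a) = (starRingEnd ℂ z) • star a
  star_star : ∀ a, star (star a) = a
  star_mul : ∀ a b, star (mul a b) = mul (star a) (star b)
  norm_U_star : ∀ a, ‖(2 : ℂ) • mul (mul a (star a)) a - mul (mul a a) (star a)‖ = ‖a‖ ^ 3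

/-- The dual space, with the dual norm. -/
def Dual (A : Type u) [NormedAddCommGroup A] [NormedSpace ℂ A] : Type u := A →L[ℂ] ℂ

variable {A : Type u} [NormedAddCommGroup A] [NormedSpace ℂ A]

noncomputable instance : NormedAddCommGroup (Dual A) := ContinuousLinearMap.toNormedAddCommGroup

noncomputable instance : NormedSpace ℂ (Dual A) := ContinuousLinearMap.toNormedSpace

noncomputable instance : FunLike (Dual A) A ℂ := ContinuousLinearMap.funLike

/-- A bounded linear functional, from a linear one with a bound. -/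
noncomputable def Dual.mk (f : A → ℂ) (h1 : ∀ a b, f (a + b) = f a + f b)
    (h2 : ∀ (z : ℂ) a, f (z • a) = z * f a) (C : ℝ) (h3 : ∀ a, ‖f a‖ ≤ C * ‖a‖) : Dual A :=
  LinearMap.mkContinuous ⟨⟨f, h1⟩, h2⟩ C h3

lemma Dual.map_add (φ : Dual A) (a b : A) : φ (a + b) = φ a + φ b :=
  ContinuousLinearMap.map_add (show A →L[ℂ] ℂ from φ) a b

lemma Dual.map_smul (φ : Dual A) (z : ℂ) (a : A) : φ (z • a) = z * φ a :=
  ContinuousLinearMap.map_smul (show A →L[ℂ] ℂ from φ) z a

lemma Dual.norm_apply_le (φ : Dual A) (a : A) : ‖φ a‖ ≤ ‖φ‖ * ‖a‖ :=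
  ContinuousLinearMap.le_opNorm (show A →L[ℂ] ℂ from φ) a

lemma Dual.ext {φ ψ : Dual A} (h : ∀ a, φ a = ψ a) : φ = ψ := DFunLike.ext φ ψ h

lemma Dual.norm_mk_le {f : A → ℂ} {h1 : ∀ a b, f (a + b) = f a + f b}
    {h2 : ∀ (z : ℂ) a, f (z • a) = z * f a} {C : ℝ} (hC : 0 ≤ C) {h3 : ∀ a, ‖f a‖ ≤ C * ‖a‖} :
    ‖Dual.mk f h1 h2 C h3‖ ≤ C :=
  LinearMap.mkContinuous_norm_le ⟨⟨f, h1⟩, h2⟩ hC h3

/-- The canonical embedding of `A` in its bidual: `emb a φ = φ a`. -/
noncomputable def emb (a : A) : Dual (Dual A) :=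
  Dual.mk (fun φ => φ a) (fun _ _ => rfl) (fun _ _ => rfl) ‖a‖
    (fun φ => by rw [mul_comm]; exact φ.norm_apply_le a)

namespace JBStarAlgebra

variable (J : JBStarAlgebra A)

/-- The functional `b ↦ φ(a ∘ b)` on `A`. -/
noncomputable def shift (φ : Dual A) (a : A) : Dual A :=
  Dual.mk (fun b => φ (J.mul a b))
    (fun b c => by rw [_root_.map_add, Dual.map_add])
    (fun z b => by rw [_root_.map_smul, Dual.map_smul])
    (‖φ‖ * ‖a‖) (fun b => by
      refine (φ.norm_apply_le _).trans ?_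
      rw [mul_assoc]
      gcongr
      exact J.norm_mul_le a b)

lemma shift_add (φ : Dual A) (a b : A) : J.shift φ (a + b) = J.shift φ a + J.shift φ b :=
  Dual.ext fun c => (congrArg φ (by rw [_root_.map_add]; rfl)).trans (φ.map_add _ _)

lemma shift_smul (φ : Dual A) (z : ℂ) (a : A) : J.shift φ (z • a) = z • J.shift φ a :=
  Dual.ext fun c => (congrArg φ (by rw [_root_.map_smul]; rfl)).trans (φ.map_smul _ _)

/-- The functional `a ↦ G(b ↦ φ(a ∘ b))` on `A`. -/
noncomputable def act (G : Dual (Dual A)) (φ : Dual A) : Dual A :=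
  Dual.mk (fun a => G (J.shift φ a))
    (fun a b => by rw [J.shift_add, Dual.map_add])
    (fun z a => by rw [J.shift_smul, Dual.map_smul])
    (‖G‖ * ‖φ‖) (fun a => by
      refine (G.norm_apply_le _).trans ?_
      rw [mul_assoc]
      gcongr
      exact Dual.norm_mk_le (by positivity))

lemma add_shift (φ ψ : Dual A) (a : A) : J.shift (φ + ψ) a = J.shift φ a + J.shift ψ a :=
  Dual.ext fun _ => rfl

lemma smul_shift (z : ℂ) (φ : Dual A) (a : A) : J.shift (z • φ) a = z • J.shift φ a :=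
  Dual.ext fun _ => rfl

lemma act_add (G : Dual (Dual A)) (φ ψ : Dual A) : J.act G (φ + ψ) = J.act G φ + J.act G ψ :=
  Dual.ext fun a => (congrArg G (J.add_shift φ ψ a)).trans (G.map_add _ _)

lemma act_smul (G : Dual (Dual A)) (z : ℂ) (φ : Dual A) : J.act G (z • φ) = z • J.act G φ :=
  Dual.ext fun a => (congrArg G (J.smul_shift z φ a)).trans (G.map_smul _ _)

/-- The (first) Arens product on the bidual: `(F □ G)(φ) = F(a ↦ G(b ↦ φ(a ∘ b)))`. -/
noncomputable def arens (F G : Dual (Dual A)) : Dual (Dual A) :=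
  Dual.mk (fun φ => F (J.act G φ))
    (fun φ ψ => by rw [J.act_add, Dual.map_add])
    (fun z φ => by rw [J.act_smul, Dual.map_smul])
    (‖F‖ * ‖G‖) (fun φ => by
      refine (F.norm_apply_le _).trans ?_
      rw [mul_assoc]
      gcongr
      exact Dual.norm_mk_le (by positivity))

/-- The multiplier algebra `M(A) = {x ∈ A** : x ∘ A ⊆ A}`. -/
def multiplier : Set (Dual (Dual A)) := {x | ∀ a : A, ∃ b : A, J.arens x (emb a) = emb b}

lemma add_act (G H : Dual (Dual A)) (φ : Dual A) : J.act (G + H) φ = J.act G φ + J.act H φ :=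
  Dual.ext fun _ => rfl

lemma smul_act (z : ℂ) (G : Dual (Dual A)) (φ : Dual A) : J.act (z • G) φ = z • J.act G φ :=
  Dual.ext fun _ => rfl

lemma arens_add (F G H : Dual (Dual A)) : J.arens F (G + H) = J.arens F G + J.arens F H :=
  Dual.ext fun φ => (congrArg F (J.add_act G H φ)).trans (F.map_add _ _)

lemma arens_smul (z : ℂ) (F G : Dual (Dual A)) : J.arens F (z • G) = z • J.arens F G :=
  Dual.ext fun φ => (congrArg F (J.smul_act z G φ)).trans (F.map_smul _ _)

/-- The seminorm `ρ_a(x) = ‖a ∘ x‖`. -/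
noncomputable def rho (a : A) : Seminorm ℂ (Dual (Dual A)) :=
  Seminorm.of (fun x => ‖J.arens (emb a) x‖)
    (fun x y => by rw [J.arens_add]; exact norm_add_le _ _)
    (fun z x => by rw [J.arens_smul, norm_smul])

/-- The locally convex topology generated by the seminorms `ρ_a`, `a ∈ A`. Its restriction to
`M(A)` is the J-strict topology. -/
@[reducible]
noncomputable def strict : TopologicalSpace (Dual (Dual A)) :=
  (SeminormFamily.moduleFilterBasis (𝕜 := ℂ) (F := Dual (Dual A)) (ι := A) J.rho).topology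

end JBStarAlgebra

end Pool.Agent.Work.MP_6503f0_an
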