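import Pool.Agent.Work.MP_6503f0_an.Defs

set_option autoImplicit false

open Topology

namespace Pool.Agent.Work.MP_6503f0_an

universe u

variable {A : Type u} [NormedAddCommGroup A] [NormedSpace ℂ A]

namespace JBStarAlgebra

variable (J : JBStarAlgebra A)

lemma add_mul (a b c : A) : J.mul (a + b) c = J.mul a c + J.mul b c := by
  rw [_root_.map_add]; rfl

lemma smul_mul (z : ℂ) (a b : A) : J.mul (z • a) b = z • J.mul a b := by
  rw [_root_.map_smul]; rfl

lemma mul_add (a b c : A) : J.mul a (b + c) = J.mul a b + J.mul a c := map_add _ _ _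

lemma mul_smul (z : ℂ) (a b : A) : J.mul a (z • b) = z • J.mul a b := map_smul _ _ _

lemma zero_mul (a : A) : J.mul 0 a = 0 := by
  rw [map_zero]; rfl

lemma mul_zero (a : A) : J.mul a 0 = 0 := map_zero _

lemma neg_mul (a b : A) : J.mul (-a) b = - J.mul a b := by
  rw [map_neg]; rfl

lemma mul_neg (a b : A) : J.mul a (-b) = - J.mul a b := map_neg _ _

lemma sub_mul (a b c : A) : J.mul (a - b) c = J.mul a c - J.mul b c := by
  rw [_root_.map_sub]; rfl

lemma mul_sub (a b c : A) : J.mul a (b - c) = J.mul a b - J.mul a c := map_sub _ _ _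

/-- The full linearisation of the Jordan identity. -/
lemma linearised (a b c d : A) :
    J.mul (J.mul a b) (J.mul c d) + J.mul (J.mul b c) (J.mul a d)
      + J.mul (J.mul c a) (J.mul b d) =
    J.mul c (J.mul (J.mul a b) d) + J.mul a (J.mul (J.mul b c) d)
      + J.mul b (J.mul (J.mul c a) d) := by
  have h1 := J.jordan (a + b + c) d
  have h2 := J.jordan (a + b) d
  have h3 := J.jordan (b + c) d
  have h4 := J.jordan (a + c) d
  have h5 := J.jordan a d
  have h6 := J.jordan b d
  have h7 := J.jordan c d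
  simp only [J.add_mul, J.mul_add] at h1 h2 h3 h4
  rw [J.mul_comm b a, J.mul_comm c a, J.mul_comm c b] at h1
  rw [J.mul_comm b a] at h2
  rw [J.mul_comm c b] at h3
  rw [J.mul_comm c a] at h4
  rw [J.mul_comm c a, J.mul_comm c d, J.mul_comm a d, J.mul_comm b d,
    J.mul_comm c (J.mul (J.mul a b) d), J.mul_comm a (J.mul (J.mul b c) d),
    J.mul_comm b (J.mul (J.mul a c) d)]
  have key : (2 : ℂ) • (J.mul (J.mul a b) (J.mul d c) + J.mul (J.mul b c) (J.mul d a)
      + J.mul (J.mul a c) (J.mul d b)) =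
    (2 : ℂ) • (J.mul (J.mul (J.mul a b) d) c + J.mul (J.mul (J.mul b c) d) a
      + J.mul (J.mul (J.mul a c) d) b) := by
    linear_combination (norm := module) (-1 : ℂ) • h1 + (1 : ℂ) • h2 + (1 : ℂ) • h3 + (1 : ℂ) • h4
      - (1 : ℂ) • h5 - (1 : ℂ) • h6 - (1 : ℂ) • h7
  exact smul_right_injective A (two_ne_zero) key

/-- Powers: `pw h n = h^{n+1}`. -/
noncomputable def pw (h : A) : ℕ → A
  | 0 => h
  | n + 1 => J.mul h (pw h n)

@[simp] lemma pw_zero (h : A) : J.pw h 0 = h := rfl

lemma pw_succ (h : A) (n : ℕ) : J.pw h (n + 1) = J.mul h (J.pw h n) := rfl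

/-- `L_{(c a) a} = 2 L_{c a} L_a + L_{a²} L_c - L_c L_a² - L_a² L_c`. -/
lemma L_mul_mul (a c x : A) :
    J.mul (J.mul a (J.mul a c)) x =
      (2 : ℂ) • J.mul (J.mul a c) (J.mul a x) + J.mul (J.mul a a) (J.mul c x)
        - J.mul c (J.mul a (J.mul a x)) - J.mul a (J.mul a (J.mul c x)) := by
  have h := J.linearised a a x c
  -- `(aa)(xc) + (ax)(ac) + (xa)(ac) = x((aa)c) + a((ax)c) + a((xa)c)`
  have h' := J.linearised a c x a
  rw [J.mul_comm (J.mul a (J.mul a c)) x]
  rw [J.mul_comm x a] at h h'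
  rw [J.mul_comm (J.mul a c) a] at h'
  rw [J.mul_comm (J.mul c x) a, J.mul_comm (J.mul a x) a,
    J.mul_comm (J.mul c x) (J.mul a a), J.mul_comm c a] at h'
  rw [J.mul_comm (J.mul a x) (J.mul a c)] at h'
  linear_combination (norm := module) (-1 : ℂ) • h'

lemma commute_sq (h : A) : Commute (J.mul h) (J.mul (J.mul h h)) := by
  change J.mul h * J.mul (J.mul h h) = J.mul (J.mul h h) * J.mul h
  ext x
  change J.mul h (J.mul (J.mul h h) x) = J.mul (J.mul h h) (J.mul h x)
  have := J.jordan h x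
  rw [J.mul_comm _ h, J.mul_comm x h] at this
  exact this

lemma L_pw_rec (h : A) (n : ℕ) :
    J.mul (J.pw h (n + 2)) =
      (2 : ℂ) • (J.mul (J.pw h (n + 1)) * J.mul h) + J.mul (J.mul h h) * J.mul (J.pw h n)
        - J.mul (J.pw h n) * (J.mul h * J.mul h) - J.mul h * J.mul h * J.mul (J.pw h n) := by
  ext x
  simp only [pw_succ, sub_apply, add_apply, smul_apply]
  exact J.L_mul_mul h (J.pw h n) x

lemma commute_pw_aux (h : A) (n : ℕ) :
    (Commute (J.mul (J.pw h n)) (J.mul h) ∧ Commute (J.mul (J.pw h n)) (J.mul (J.mul h h))) ∧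
    (Commute (J.mul (J.pw h (n + 1))) (J.mul h) ∧
      Commute (J.mul (J.pw h (n + 1))) (J.mul (J.mul h h))) := by
  have hsq := J.commute_sq h
  induction n with
  | zero =>
    refine ⟨⟨Commute.refl _, hsq⟩, ?_⟩
    simp only [pw_succ, pw_zero]
    exact ⟨hsq.symm, Commute.refl _⟩
  | succ n ih =>
    refine ⟨ih.2, ?_⟩
    rw [L_pw_rec]
    obtain ⟨⟨h1, h2⟩, h3, h4⟩ := ih
    constructor
    · exact ((((h3.mul_left (Commute.refl _)).smul_left _).add_left (hsq.symm.mul_left h1)).sub_left
        (h1.mul_left ((Commute.refl _).mul_left (Commute.refl _)))).sub_left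
        (((Commute.refl _).mul_left (Commute.refl _)).mul_left h1)
    · exact ((((h4.mul_left hsq).smul_left _).add_left ((Commute.refl _).mul_left h2)).sub_left
        (h2.mul_left (hsq.mul_left hsq))).sub_left ((hsq.mul_left hsq).mul_left h2)

lemma commute_pw (h : A) (n : ℕ) : Commute (J.mul (J.pw h n)) (J.mul h) := (J.commute_pw_aux h n).1.1

/-- Power associativity. -/
lemma pw_mul_pw (h : A) (m n : ℕ) : J.mul (J.pw h m) (J.pw h n) = J.pw h (m + n + 1) := by
  induction m with
  | zero => rw [pw_zero, ← pw_succ]; congr 1; omega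
  | succ m ih =>
    have h1 : J.mul (J.pw h n) (J.mul h (J.pw h m)) = J.mul h (J.mul (J.pw h n) (J.pw h m)) := by
      have := DFunLike.congr_fun (J.commute_pw h n).eq (J.pw h m)
      simpa using this
    rw [pw_succ, J.mul_comm, h1, J.mul_comm (J.pw h n), ih, ← pw_succ]
    congr 1
    omega

/-- The span of the powers of `h`. -/
noncomputable def S (h : A) : Submodule ℂ A := Submodule.span ℂ (Set.range (J.pw h))

/-- The closed subspace generated by the powers of `h`. -/
noncomputable def C (h : A) : Submodule ℂ A := (J.S h).topologicalClosure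

lemma continuous_mul : Continuous (fun p : A × A => J.mul p.1 p.2) := by
  have : Continuous (fun p : A × A => J.mul p.1 p.2) :=
    (J.mul.continuous.comp continuous_fst).clm_apply continuous_snd
  exact this

lemma S_mul {h x y : A} (hx : x ∈ J.S h) (hy : y ∈ J.S h) : J.mul x y ∈ J.S h := by
  unfold S at hx hy ⊢
  induction hx, hy using Submodule.span_induction₂ with
  | mem_mem x y hx hy =>
    obtain ⟨m, rfl⟩ := hx
    obtain ⟨n, rfl⟩ := hy
    rw [J.pw_mul_pw]
    exact Submodule.subset_span ⟨_, rfl⟩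
  | zero_left y hy => rw [J.zero_mul]; exact Submodule.zero_mem _
  | zero_right x hx => rw [J.mul_zero]; exact Submodule.zero_mem _
  | add_left x y z hx hy hz h1 h2 => rw [J.add_mul]; exact Submodule.add_mem _ h1 h2
  | add_right x y z hx hy hz h1 h2 => rw [J.mul_add]; exact Submodule.add_mem _ h1 h2
  | smul_left r x y hx hy h1 => rw [J.smul_mul]; exact Submodule.smul_mem _ _ h1
  | smul_right r x y hx hy h1 => rw [J.mul_smul]; exact Submodule.smul_mem _ _ h1

lemma C_mul {h x y : A} (hx : x ∈ J.C h) (hy : y ∈ J.C h) : J.mul x y ∈ J.C h :=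
  map_mem_closure₂ (f := fun a b => J.mul a b) J.continuous_mul hx hy
    (fun _ ha _ hb => J.S_mul ha hb)

lemma S_assoc {h x y z : A} (hx : x ∈ J.S h) (hy : y ∈ J.S h) (hz : z ∈ J.S h) :
    J.mul (J.mul x y) z = J.mul x (J.mul y z) := by
  unfold S at hx hy hz
  induction hx using Submodule.span_induction with
  | mem x hx =>
    obtain ⟨k, rfl⟩ := hx
    induction hy using Submodule.span_induction with
    | mem y hy =>
      obtain ⟨l, rfl⟩ := hy
      induction hz using Submodule.span_induction with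
      | mem z hz =>
        obtain ⟨m, rfl⟩ := hz
        simp only [pw_mul_pw]
        congr 1
        omega
      | zero => simp only [J.mul_zero]
      | add a b _ _ h1 h2 => simp only [J.mul_add, h1, h2]
      | smul r a _ h1 => simp only [J.mul_smul, h1]
    | zero => simp only [J.mul_zero, J.zero_mul]
    | add a b _ _ h1 h2 => simp only [J.mul_add, J.add_mul, h1, h2]
    | smul r a _ h1 => simp only [J.mul_smul, J.smul_mul, h1]
  | zero => simp only [J.zero_mul]
  | add a b _ _ h1 h2 => simp only [J.add_mul, h1, h2]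
  | smul r a _ h1 => simp only [J.smul_mul, h1]

lemma C_assoc {h x y z : A} (hx : x ∈ J.C h) (hy : y ∈ J.C h) (hz : z ∈ J.C h) :
    J.mul (J.mul x y) z = J.mul x (J.mul y z) := by
  have c1 : Continuous fun p : A × A × A => J.mul (J.mul p.1 p.2.1) p.2.2 :=
    J.continuous_mul.comp ((J.continuous_mul.comp
      (continuous_fst.prodMk (continuous_fst.comp continuous_snd))).prodMk
        (continuous_snd.comp continuous_snd))
  have c2 : Continuous fun p : A × A × A => J.mul p.1 (J.mul p.2.1 p.2.2) :=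
    J.continuous_mul.comp (continuous_fst.prodMk (J.continuous_mul.comp continuous_snd))
  have hcl : IsClosed {p : A × A × A | J.mul (J.mul p.1 p.2.1) p.2.2 = J.mul p.1 (J.mul p.2.1 p.2.2)} :=
    isClosed_eq c1 c2
  have hsub : closure ((J.S h : Set A) ×ˢ (J.S h : Set A) ×ˢ (J.S h : Set A)) ⊆
      {p : A × A × A | J.mul (J.mul p.1 p.2.1) p.2.2 = J.mul p.1 (J.mul p.2.1 p.2.2)} := by
    refine closure_minimal ?_ hcl
    rintro ⟨x, y, z⟩ ⟨h1, h2, h3⟩
    exact J.S_assoc h1 h2 h3
  have hmem : (x, y, z) ∈ closure ((J.S h : Set A) ×ˢ (J.S h : Set A) ×ˢ (J.S h : Set A)) := by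
    rw [closure_prod_eq, closure_prod_eq]
    exact ⟨hx, hy, hz⟩
  exact hsub hmem

lemma norm_le_three_mul_norm_star (a : A) : ‖a‖ ≤ 3 * ‖J.star a‖ := by
  rcases eq_or_ne a 0 with rfl | ha
  · simp
  · have h1 := J.norm_U_star a
    have h2 : ‖(2 : ℂ) • J.mul (J.mul a (J.star a)) a - J.mul (J.mul a a) (J.star a)‖ ≤
        3 * ‖a‖ ^ 2 * ‖J.star a‖ := by
      refine (norm_sub_le _ _).trans ?_
      have h3 : ‖J.mul (J.mul a (J.star a)) a‖ ≤ ‖a‖ * ‖J.star a‖ * ‖a‖ :=
        (J.norm_mul_le _ _).trans (by gcongr; exact J.norm_mul_le _ _)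
      have h4 : ‖J.mul (J.mul a a) (J.star a)‖ ≤ ‖a‖ * ‖a‖ * ‖J.star a‖ :=
        (J.norm_mul_le _ _).trans (by gcongr; exact J.norm_mul_le _ _)
      rw [norm_smul]
      have h5 : ‖(2 : ℂ)‖ = 2 := by simp
      rw [h5]
      nlinarith
    rw [h1] at h2
    have hpos : 0 < ‖a‖ := norm_pos_iff.2 ha
    have h6 : ‖a‖ ^ 2 * ‖a‖ ≤ ‖a‖ ^ 2 * (3 * ‖J.star a‖) := by nlinarith
    exact le_of_mul_le_mul_left h6 (by positivity)

lemma norm_star_le (a : A) : ‖J.star a‖ ≤ 3 * ‖a‖ := by
  have := J.norm_le_three_mul_norm_star (J.star a)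
  rwa [J.star_star] at this

lemma star_zero : J.star 0 = 0 := by
  have := J.star_smul 0 0
  simpa using this

lemma star_sub (a b : A) : J.star (a - b) = J.star a - J.star b := by
  have h := J.star_add (a - b) b
  rw [sub_add_cancel] at h
  rw [h, add_sub_cancel_right]

lemma continuous_star : Continuous J.star := by
  refine continuous_iff_continuousAt.2 fun a => ?_
  rw [ContinuousAt, tendsto_iff_norm_sub_tendsto_zero]
  have h1 : Filter.Tendsto (fun x => 3 * ‖x - a‖) (𝓝 a) (𝓝 0) := by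
    have : Continuous (fun x : A => 3 * ‖x - a‖) := by fun_prop
    simpa using this.tendsto a
  refine squeeze_zero (fun _ => norm_nonneg _) (fun x => ?_) h1
  rw [← J.star_sub]
  exact J.norm_star_le _

lemma star_pw {h : A} (hh : J.star h = h) (n : ℕ) : J.star (J.pw h n) = J.pw h n := by
  induction n with
  | zero => exact hh
  | succ n ih => rw [pw_succ, J.star_mul, hh, ih]

lemma S_star {h x : A} (hh : J.star h = h) (hx : x ∈ J.S h) : J.star x ∈ J.S h := by
  unfold S at hx ⊢
  induction hx using Submodule.span_induction with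
  | mem x hx =>
    obtain ⟨n, rfl⟩ := hx
    rw [J.star_pw hh]
    exact Submodule.subset_span ⟨_, rfl⟩
  | zero => rw [J.star_zero]; exact Submodule.zero_mem _
  | add a b _ _ h1 h2 => rw [J.star_add]; exact Submodule.add_mem _ h1 h2
  | smul r a _ h1 => rw [J.star_smul]; exact Submodule.smul_mem _ _ h1

lemma C_star {h x : A} (hh : J.star h = h) (hx : x ∈ J.C h) : J.star x ∈ J.C h :=
  map_mem_closure J.continuous_star hx (fun _ ha => J.S_star hh ha)

lemma mem_C_self (h : A) : h ∈ J.C h :=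
  Submodule.le_topologicalClosure _ (Submodule.subset_span ⟨0, rfl⟩)

/-- The closed subalgebra generated by a self-adjoint element is a commutative C*-algebra. -/
@[reducible]
noncomputable def cstarC [CompleteSpace A] (h : A) (hh : J.star h = h) :
    NonUnitalCommCStarAlgebra (J.C h) :=
  let ring : NonUnitalCommRing (J.C h) :=
    { (inferInstance : AddCommGroup (J.C h)) with
      mul := fun x y => ⟨J.mul x y, J.C_mul x.2 y.2⟩
      left_distrib := fun x y z => Subtype.ext (J.mul_add _ _ _)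
      right_distrib := fun x y z => Subtype.ext (J.add_mul _ _ _)
      zero_mul := fun x => Subtype.ext (J.zero_mul _)
      mul_zero := fun x => Subtype.ext (J.mul_zero _)
      mul_assoc := fun x y z => Subtype.ext (J.C_assoc x.2 y.2 z.2)
      mul_comm := fun x y => Subtype.ext (J.mul_comm _ _) }
  { ring, (inferInstance : NormedAddCommGroup (J.C h)), (inferInstance : NormedSpace ℂ (J.C h)) with
    norm_mul_le := fun x y => J.norm_mul_le _ _
    star := fun x => ⟨J.star x, J.C_star hh x.2⟩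
    star_involutive := fun x => Subtype.ext (J.star_star _)
    star_mul := fun x y => Subtype.ext ((J.star_mul _ _).trans (J.mul_comm _ _))
    star_add := fun x y => Subtype.ext (J.star_add _ _)
    star_smul := fun z x => Subtype.ext (J.star_smul _ _)
    smul_assoc := fun z x y => Subtype.ext (J.smul_mul _ _ _)
    smul_comm := fun z x y => Subtype.ext (J.mul_smul _ _ _).symm
    norm_smul_le := fun z x => norm_smul_le z x
    complete := (IsClosed.completeSpace_coe
      (hs := (J.S h).isClosed_topologicalClosure) : CompleteSpace (J.C h)).complete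
    norm_mul_self_le := by
      intro x
      change ‖(x : A)‖ * ‖(x : A)‖ ≤ ‖J.mul (J.star x) x‖
      have h1 := J.norm_U_star (x : A)
      have hsx := J.C_star hh x.2
      have h2 : J.mul (J.mul (x : A) (J.star x)) x = J.mul (J.mul (x : A) x) (J.star x) := by
        rw [J.C_assoc x.2 hsx x.2, J.mul_comm (J.star x) x, ← J.C_assoc x.2 x.2 hsx]
      rw [h2, two_smul, add_sub_cancel_right] at h1
      rw [J.C_assoc x.2 x.2 hsx] at h1
      have h3 : ‖J.mul (x : A) (J.mul x (J.star x))‖ ≤ ‖(x : A)‖ * ‖J.mul (x : A) (J.star x)‖ :=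
        J.norm_mul_le _ _
      rw [h1] at h3
      rw [J.mul_comm (J.star x)]
      rcases eq_or_ne (‖(x : A)‖) 0 with h0 | h0
      · rw [h0, MulZeroClass.zero_mul]
        exact norm_nonneg _
      · have hpos : 0 < ‖(x : A)‖ := lt_of_le_of_ne (norm_nonneg _) (Ne.symm h0)
        have h4 : ‖(x : A)‖ * (‖(x : A)‖ * ‖(x : A)‖) ≤ ‖(x : A)‖ * ‖J.mul (x : A) (J.star x)‖ := by
          nlinarith
        exact le_of_mul_le_mul_left h4 hpos }

/-- Self-adjoint elements factorise. -/
lemma exists_mul_of_selfAdjoint [CompleteSpace A] (h : A) (hh : J.star h = h) :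
    ∃ b c : A, J.mul b c = h := by
  let _ := J.cstarC h hh
  let a : J.C h := ⟨h, J.mem_C_self h⟩
  have ha : IsSelfAdjoint a := Subtype.ext hh
  let f : ℝ → ℝ := fun x => Real.sqrt x - Real.sqrt (-x)
  let g : ℝ → ℝ := fun x => Real.sqrt x + Real.sqrt (-x)
  have hf : Continuous f := by fun_prop
  have hg : Continuous g := by fun_prop
  have hf0 : f 0 = 0 := by simp [f]
  have hg0 : g 0 = 0 := by simp [g]
  have hfg : (fun x => f x * g x) = fun x => x := by
    funext x
    simp only [f, g]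
    rcases le_total 0 x with hx | hx
    · rw [Real.sqrt_eq_zero_of_nonpos (by linarith : -x ≤ 0)]
      nlinarith [Real.mul_self_sqrt hx]
    · rw [Real.sqrt_eq_zero_of_nonpos hx]
      nlinarith [Real.mul_self_sqrt (by linarith : 0 ≤ -x)]
  have hmul : cfcₙ (fun x => f x * g x) a = cfcₙ f a * cfcₙ g a :=
    cfcₙ_mul f g a hf.continuousOn hf0 hg.continuousOn hg0
  rw [hfg, cfcₙ_id' ℝ a ha] at hmul
  exact ⟨(cfcₙ f a : J.C h), (cfcₙ g a : J.C h), (congrArg Subtype.val hmul).symm⟩

/-- Every element is a sum of two products. -/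
lemma exists_eq_add_mul [CompleteSpace A] (a : A) :
    ∃ b c d e : A, a = J.mul b c + J.mul d e := by
  obtain ⟨b, c, hbc⟩ := J.exists_mul_of_selfAdjoint ((1 / 2 : ℂ) • (a + J.star a)) (by
    rw [J.star_smul, J.star_add, J.star_star, add_comm]
    congr 1
    rw [map_div₀, map_one, Complex.conj_ofNat])
  obtain ⟨d, e, hde⟩ := J.exists_mul_of_selfAdjoint ((-(Complex.I / 2) : ℂ) • (a - J.star a)) (by
    rw [J.star_smul, J.star_sub, J.star_star]
    have : (starRingEnd ℂ) (-(Complex.I / 2)) = Complex.I / 2 := by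
      rw [map_neg, map_div₀, Complex.conj_ofNat, Complex.conj_I]
      ring
    rw [this]
    module)
  refine ⟨b, c, Complex.I • d, e, ?_⟩
  rw [hbc, J.smul_mul, hde, smul_smul]
  have : Complex.I * -(Complex.I / 2) = 1 / 2 := by
    have := Complex.I_mul_I
    linear_combination (-1 / 2 : ℂ) * this
  rw [this]
  module

end JBStarAlgebra

lemma Dual.map_sub (φ : Dual A) (a b : A) : φ (a - b) = φ a - φ b :=
  ContinuousLinearMap.map_sub (show A →L[ℂ] ℂ from φ) a b

lemma Dual.map_zero (φ : Dual A) : φ 0 = 0 :=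
  ContinuousLinearMap.map_zero (show A →L[ℂ] ℂ from φ)

lemma Dual.add_apply (φ ψ : Dual A) (a : A) : (φ + ψ) a = φ a + ψ a := rfl

lemma Dual.sub_apply (φ ψ : Dual A) (a : A) : (φ - ψ) a = φ a - ψ a := rfl

lemma emb_add (a b : A) : emb (a + b) = emb a + emb b := Dual.ext fun φ => φ.map_add a b

lemma emb_sub (a b : A) : emb (a - b) = emb a - emb b := Dual.ext fun φ => φ.map_sub a b

lemma norm_emb_le (a : A) : ‖emb a‖ ≤ ‖a‖ := Dual.norm_mk_le (norm_nonneg _)

namespace JBStarAlgebra

variable (J : JBStarAlgebra A)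

lemma norm_arens_le (F G : Dual (Dual A)) : ‖J.arens F G‖ ≤ ‖F‖ * ‖G‖ :=
  Dual.norm_mk_le (by positivity)

lemma arens_apply (F G : Dual (Dual A)) (φ : Dual A) : J.arens F G φ = F (J.act G φ) := rfl

lemma add_arens (F G H : Dual (Dual A)) : J.arens (F + G) H = J.arens F H + J.arens G H :=
  Dual.ext fun _ => rfl

lemma smul_arens (z : ℂ) (F G : Dual (Dual A)) : J.arens (z • F) G = z • J.arens F G :=
  Dual.ext fun _ => rfl

lemma emb_arens_apply (a : A) (G : Dual (Dual A)) (φ : Dual A) :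
    J.arens (emb a) G φ = G (J.shift φ a) := rfl

lemma act_emb (a : A) (φ : Dual A) : J.act (emb a) φ = J.shift φ a := by
  refine Dual.ext fun b => ?_
  change φ (J.mul b a) = φ (J.mul a b)
  rw [J.mul_comm]

/-- Elements of `A` commute with all elements of the bidual. -/
lemma arens_emb (a : A) (F : Dual (Dual A)) : J.arens F (emb a) = J.arens (emb a) F := by
  refine Dual.ext fun φ => ?_
  rw [arens_apply, act_emb, emb_arens_apply]

lemma emb_mul (a b : A) : J.arens (emb a) (emb b) = emb (J.mul a b) :=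
  Dual.ext fun _ => rfl

/-- The key identity: the linearised Jordan identity with two entries in the bidual. -/
lemma key_identity (b c : A) (x y : Dual (Dual A)) :
    J.arens (emb (J.mul b c)) (J.arens x y) =
      J.arens x (J.arens (emb (J.mul b c)) y)
      - J.arens (J.arens x (emb b)) (J.arens (emb c) y)
      + J.arens (emb c) (J.arens (J.arens x (emb b)) y)
      - J.arens (J.arens x (emb c)) (J.arens (emb b) y)
      + J.arens (emb b) (J.arens (J.arens x (emb c)) y) := by
  refine Dual.ext fun φ => ?_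
  have key : J.act y (J.shift φ (J.mul b c)) =
      J.act (J.arens (emb (J.mul b c)) y) φ
      - J.act (emb b) (J.act (J.arens (emb c) y) φ)
      + J.act (emb b) (J.act y (J.shift φ c))
      - J.act (emb c) (J.act (J.arens (emb b) y) φ)
      + J.act (emb c) (J.act y (J.shift φ b)) := by
    refine Dual.ext fun a => ?_
    have h1 : J.shift (J.shift φ (J.mul b c)) a =
        J.shift (J.shift φ a) (J.mul b c)
        - J.shift (J.shift φ (J.mul b a)) c
        + J.shift (J.shift φ c) (J.mul b a)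
        - J.shift (J.shift φ (J.mul c a)) b
        + J.shift (J.shift φ b) (J.mul c a) := by
      refine Dual.ext fun d => ?_
      have h2 := J.linearised b c a d
      rw [J.mul_comm a b] at h2
      have h3 := congrArg φ h2
      simp only [Dual.map_add] at h3
      simp only [Dual.add_apply, Dual.sub_apply]
      change φ (J.mul (J.mul b c) (J.mul a d)) = φ (J.mul a (J.mul (J.mul b c) d))
        - φ (J.mul (J.mul b a) (J.mul c d)) + φ (J.mul c (J.mul (J.mul b a) d))
        - φ (J.mul (J.mul c a) (J.mul b d)) + φ (J.mul b (J.mul (J.mul c a) d))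
      linear_combination h3
    have h4 := congrArg y h1
    simp only [Dual.map_add, Dual.map_sub] at h4
    simp only [Dual.add_apply, Dual.sub_apply, act_emb]
    exact h4
  have h5 := congrArg x key
  simp only [Dual.map_add, Dual.map_sub] at h5
  simp only [Dual.add_apply, Dual.sub_apply]
  exact h5

lemma mem_multiplier {x : Dual (Dual A)} : x ∈ J.multiplier ↔
    ∀ a : A, ∃ b : A, J.arens x (emb a) = emb b := Iff.rfl

/-- Products of multipliers are multipliers. -/
lemma arens_mem_multiplier [CompleteSpace A] {x y : Dual (Dual A)} (hx : x ∈ J.multiplier)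
    (hy : y ∈ J.multiplier) : J.arens x y ∈ J.multiplier := by
  have key : ∀ b c : A, ∃ u : A, J.arens (emb (J.mul b c)) (J.arens x y) = emb u := by
    intro b c
    obtain ⟨xb, hxb⟩ := hx b
    obtain ⟨xc, hxc⟩ := hx c
    obtain ⟨yb, hyb⟩ := hy b
    obtain ⟨yc, hyc⟩ := hy c
    obtain ⟨ybc, hybc⟩ := hy (J.mul b c)
    obtain ⟨u1, hu1⟩ := hx ybc
    obtain ⟨u2, hu2⟩ := hy xb
    obtain ⟨u3, hu3⟩ := hy xc
    rw [J.arens_emb] at hyb hyc hybc hu2 hu3
    rw [J.key_identity, hxb, hxc, hyb, hyc, hybc, hu1, hu2, hu3, J.emb_mul, J.emb_mul, J.emb_mul,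
      J.emb_mul]
    exact ⟨u1 - J.mul xb yc + J.mul c u2 - J.mul xc yb + J.mul b u3, by
      simp only [emb_add, emb_sub]⟩
  intro a
  rw [J.arens_emb]
  obtain ⟨b, c, d, e, rfl⟩ := J.exists_eq_add_mul a
  obtain ⟨u, hu⟩ := key b c
  obtain ⟨v, hv⟩ := key d e
  exact ⟨u + v, by rw [emb_add, J.add_arens, hu, hv, emb_add]⟩

lemma withSeminorms_strict :
    @WithSeminorms ℂ (Dual (Dual A)) A _ _ _ J.rho J.strict :=
  @WithSeminorms.mk _ _ _ _ _ _ _ J.strict rfl

/-- Estimate for left multiplication. -/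
lemma norm_left_le (b c xb xc : A) (x y : Dual (Dual A)) (hb : J.arens x (emb b) = emb xb)
    (hc : J.arens x (emb c) = emb xc) :
    ‖J.arens (emb (J.mul b c)) (J.arens x y)‖ ≤
      ‖x‖ * ‖J.arens (emb (J.mul b c)) y‖ + ‖xb‖ * ‖J.arens (emb c) y‖
      + ‖c‖ * ‖J.arens (emb xb) y‖ + ‖xc‖ * ‖J.arens (emb b) y‖
      + ‖b‖ * ‖J.arens (emb xc) y‖ := by
  rw [J.key_identity, hb, hc]
  have h1 := J.norm_arens_le x (J.arens (emb (J.mul b c)) y)
  have h2 := (J.norm_arens_le (emb xb) (J.arens (emb c) y)).trans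
    (mul_le_mul_of_nonneg_right (norm_emb_le xb) (norm_nonneg _))
  have h3 := (J.norm_arens_le (emb c) (J.arens (emb xb) y)).trans
    (mul_le_mul_of_nonneg_right (norm_emb_le c) (norm_nonneg _))
  have h4 := (J.norm_arens_le (emb xc) (J.arens (emb b) y)).trans
    (mul_le_mul_of_nonneg_right (norm_emb_le xc) (norm_nonneg _))
  have h5 := (J.norm_arens_le (emb b) (J.arens (emb xc) y)).trans
    (mul_le_mul_of_nonneg_right (norm_emb_le b) (norm_nonneg _))
  refine (norm_add_le _ _).trans (add_le_add ?_ h5)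
  refine (norm_sub_le _ _).trans (add_le_add ?_ h4)
  refine (norm_add_le _ _).trans (add_le_add ?_ h3)
  exact (norm_sub_le _ _).trans (add_le_add h1 h2)

/-- Estimate for right multiplication. -/
lemma norm_right_le (b c u xb xc : A) (x y : Dual (Dual A))
    (hu : J.arens (emb (J.mul b c)) x = emb u)
    (hb : J.arens (emb b) x = emb xb) (hc : J.arens (emb c) x = emb xc) :
    ‖J.arens (emb (J.mul b c)) (J.arens y x)‖ ≤
      ‖J.arens (emb u) y‖ + ‖xc‖ * ‖J.arens (emb b) y‖
      + ‖c‖ * ‖x‖ * ‖J.arens (emb b) y‖ + ‖xb‖ * ‖J.arens (emb c) y‖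
      + ‖b‖ * ‖x‖ * ‖J.arens (emb c) y‖ := by
  rw [J.key_identity, hu, hb, hc, J.arens_emb u, J.arens_emb b y, J.arens_emb c y]
  have h2 := (J.norm_arens_le (J.arens (emb b) y) (emb xc)).trans
    (mul_le_mul_of_nonneg_left (norm_emb_le xc) (norm_nonneg _))
  have h3 : ‖J.arens (emb c) (J.arens (J.arens (emb b) y) x)‖ ≤
      ‖c‖ * ‖x‖ * ‖J.arens (emb b) y‖ := by
    refine (J.norm_arens_le _ _).trans ?_
    have := J.norm_arens_le (J.arens (emb b) y) x
    calc ‖emb c‖ * ‖J.arens (J.arens (emb b) y) x‖ ≤ ‖c‖ * (‖J.arens (emb b) y‖ * ‖x‖) :=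
          mul_le_mul (norm_emb_le c) this (norm_nonneg _) (norm_nonneg _)
      _ = _ := by ring
  have h4 := (J.norm_arens_le (J.arens (emb c) y) (emb xb)).trans
    (mul_le_mul_of_nonneg_left (norm_emb_le xb) (norm_nonneg _))
  have h5 : ‖J.arens (emb b) (J.arens (J.arens (emb c) y) x)‖ ≤
      ‖b‖ * ‖x‖ * ‖J.arens (emb c) y‖ := by
    refine (J.norm_arens_le _ _).trans ?_
    have := J.norm_arens_le (J.arens (emb c) y) x
    calc ‖emb b‖ * ‖J.arens (J.arens (emb c) y) x‖ ≤ ‖b‖ * (‖J.arens (emb c) y‖ * ‖x‖) :=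
          mul_le_mul (norm_emb_le b) this (norm_nonneg _) (norm_nonneg _)
      _ = _ := by ring
  refine (norm_add_le _ _).trans (add_le_add ?_ h5)
  refine (norm_sub_le _ _).trans (add_le_add ?_ (h4.trans (by rw [_root_.mul_comm])))
  refine (norm_add_le _ _).trans (add_le_add ?_ h3)
  exact (norm_sub_le _ _).trans (add_le_add le_rfl (h2.trans (by rw [_root_.mul_comm])))

/-- Left multiplication, as a linear map. -/
noncomputable def left (x : Dual (Dual A)) : Dual (Dual A) →ₗ[ℂ] Dual (Dual A) where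
  toFun := fun y => J.arens x y
  map_add' := fun _ _ => J.arens_add _ _ _
  map_smul' := fun _ _ => J.arens_smul _ _ _

/-- Right multiplication, as a linear map. -/
noncomputable def right (x : Dual (Dual A)) : Dual (Dual A) →ₗ[ℂ] Dual (Dual A) where
  toFun := fun y => J.arens y x
  map_add' := fun _ _ => J.add_arens _ _ _
  map_smul' := fun _ _ => J.smul_arens _ _ _

lemma rho_le_sup {a : A} {s : Finset A} (ha : a ∈ s) (y : Dual (Dual A)) :
    ‖J.arens (emb a) y‖ ≤ (s.sup J.rho) y :=
  (Finset.le_sup (f := J.rho) ha) y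

/-- If each `y ↦ ρ_{b ∘ c}(T y)` is dominated by finitely many seminorms, then so is each
`y ↦ ρ_a(T y)`. -/
lemma isBounded_of_products [CompleteSpace A] (T : Dual (Dual A) →ₗ[ℂ] Dual (Dual A))
    (h : ∀ b c : A, ∃ (s : Finset A) (C : NNReal), ∀ y : Dual (Dual A),
      ‖J.arens (emb (J.mul b c)) (T y)‖ ≤ C * (s.sup J.rho) y) :
    Seminorm.IsBounded J.rho J.rho T := by
  classical
  intro a
  obtain ⟨b, c, d, e, rfl⟩ := J.exists_eq_add_mul a
  obtain ⟨s, C, hs⟩ := h b c
  obtain ⟨t, D, ht⟩ := h d e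
  refine ⟨s ∪ t, C + D, fun y => ?_⟩
  have h1 : (s.sup J.rho) y ≤ ((s ∪ t).sup J.rho) y :=
    (Finset.sup_mono (f := J.rho) Finset.subset_union_left) y
  have h2 : (t.sup J.rho) y ≤ ((s ∪ t).sup J.rho) y :=
    (Finset.sup_mono (f := J.rho) Finset.subset_union_right) y
  have h3 : ‖J.arens (emb (J.mul b c + J.mul d e)) (T y)‖ ≤
      ‖J.arens (emb (J.mul b c)) (T y)‖ + ‖J.arens (emb (J.mul d e)) (T y)‖ := by
    rw [emb_add, J.add_arens]
    exact norm_add_le _ _
  have hgoal : ‖J.arens (emb (J.mul b c + J.mul d e)) (T y)‖ ≤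
      ((C + D : NNReal) : ℝ) * ((s ∪ t).sup J.rho) y := by
    refine h3.trans ?_
    rw [NNReal.coe_add, _root_.add_mul]
    exact add_le_add ((hs y).trans (mul_le_mul_of_nonneg_left h1 C.2))
      ((ht y).trans (mul_le_mul_of_nonneg_left h2 D.2))
  exact hgoal

lemma isBounded_left [CompleteSpace A] {x : Dual (Dual A)} (hx : x ∈ J.multiplier) :
    Seminorm.IsBounded J.rho J.rho (J.left x) := by
  classical
  apply J.isBounded_of_products
  intro b c
  obtain ⟨xb, hb⟩ := hx b
  obtain ⟨xc, hc⟩ := hx c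
  refine ⟨{J.mul b c, c, xb, b, xc},
    ‖x‖₊ + ‖xb‖₊ + ‖c‖₊ + ‖xc‖₊ + ‖b‖₊, fun y => ?_⟩
  have h := J.norm_left_le b c xb xc x y hb hc
  change ‖J.arens (emb (J.mul b c)) (J.arens x y)‖ ≤ _
  refine h.trans ?_
  have e1 := J.rho_le_sup (a := J.mul b c) (s := {J.mul b c, c, xb, b, xc}) (by simp) y
  have e2 := J.rho_le_sup (a := c) (s := {J.mul b c, c, xb, b, xc}) (by simp) y
  have e3 := J.rho_le_sup (a := xb) (s := {J.mul b c, c, xb, b, xc}) (by simp) y
  have e4 := J.rho_le_sup (a := b) (s := {J.mul b c, c, xb, b, xc}) (by simp) y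
  have e5 := J.rho_le_sup (a := xc) (s := {J.mul b c, c, xb, b, xc}) (by simp) y
  simp only [NNReal.coe_add, coe_nnnorm, _root_.add_mul]
  gcongr

lemma isBounded_right [CompleteSpace A] {x : Dual (Dual A)} (hx : x ∈ J.multiplier) :
    Seminorm.IsBounded J.rho J.rho (J.right x) := by
  classical
  apply J.isBounded_of_products
  intro b c
  obtain ⟨xb, hb⟩ := hx b
  obtain ⟨xc, hc⟩ := hx c
  obtain ⟨u, hu⟩ := hx (J.mul b c)
  rw [J.arens_emb] at hb hc hu
  refine ⟨{u, b, c},
    1 + ‖xc‖₊ + ‖c‖₊ * ‖x‖₊ + ‖xb‖₊ + ‖b‖₊ * ‖x‖₊, fun y => ?_⟩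
  have h := J.norm_right_le b c u xb xc x y hu hb hc
  change ‖J.arens (emb (J.mul b c)) (J.arens y x)‖ ≤ _
  refine h.trans ?_
  have e1 := J.rho_le_sup (a := u) (s := {u, b, c}) (by simp) y
  have e2 := J.rho_le_sup (a := b) (s := {u, b, c}) (by simp) y
  have e3 := J.rho_le_sup (a := c) (s := {u, b, c}) (by simp) y
  simp only [NNReal.coe_add, NNReal.coe_mul, NNReal.coe_one, coe_nnnorm, _root_.add_mul,
    _root_.one_mul]
  gcongr

lemma continuous_left [CompleteSpace A] {x : Dual (Dual A)} (hx : x ∈ J.multiplier) :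
    Continuous[J.strict, J.strict] (fun y => J.arens x y) :=
  WithSeminorms.continuous_of_isBounded (p := J.rho) (q := J.rho)
      J.withSeminorms_strict J.withSeminorms_strict (J.left x) (J.isBounded_left hx)

lemma continuous_right [CompleteSpace A] {x : Dual (Dual A)} (hx : x ∈ J.multiplier) :
    Continuous[J.strict, J.strict] (fun y => J.arens y x) :=
  WithSeminorms.continuous_of_isBounded (p := J.rho) (q := J.rho)
      J.withSeminorms_strict J.withSeminorms_strict (J.right x) (J.isBounded_right hx)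

end JBStarAlgebra

end Pool.Agent.Work.MP_6503f0_an
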